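import Mathlib

/-!
# An internal-variable-free normal logic program without L-stable models

The program has a constant `0`, a unary function symbol `s`, unary predicates `r, q, p, t, g`, and
the rules

* `r(X) ← ~q(X)`, `q(X) ← ~r(X)`: choose the set of all `x` with `r(x)`;
* `p(X) ← r(X)`, `p(X) ← p(s(X))`: so `p(0)` says that `r` holds somewhere;
* `t(X) ← r(X)`, `t(s(X)) ← t(X)`: so `t(y)` says that `r` holds at some `x ≤ y`;
* `g(X) ← t(X), ~g(X)` and `g(X) ← ~g(X), ~p(0)`: so `g(y)` is undefined if `t(y)` holds or if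
  `p(0)` does not hold.

In every stable partial model there is an `m` such that `g(y)` is undefined for all `y ≥ m`, and for
every `m` there is a stable partial model whose undefined atoms are exactly the atoms `g(y)` with
`y ≥ m + 1`.
-/

set_option autoImplicit false

namespace Pool.Agent.Results.MP_718be6_lc.NoLStableModel


section general

variable {L : FirstOrder.Language.{0, 0}}

/-- Atoms with variables from `α`: a predicate symbol of arity `n` and `n` terms. -/
structure Atom (L : FirstOrder.Language.{0, 0}) (α : Type) where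
  /-- the arity -/
  arity : ℕ
  /-- the predicate symbol -/
  pred : L.Relations arity
  /-- the arguments -/
  args : Fin arity → L.Term α

/-- Rules `head ← pos, ~neg` with variables from `α`. -/
structure Rule (L : FirstOrder.Language.{0, 0}) (α : Type) where
  /-- the head -/
  head : Atom L α
  /-- the positive body atoms -/
  pos : List (Atom L α)
  /-- the atoms which occur negated in the body -/
  neg : List (Atom L α)

/-- Substitution in atoms. -/
def Atom.subst {α β : Type} (a : Atom L α) (σ : α → L.Term β) : Atom L β :=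
  ⟨a.arity, a.pred, fun i => (a.args i).subst σ⟩

/-- Substitution in rules. -/
def Rule.subst {α β : Type} (r : Rule L α) (σ : α → L.Term β) : Rule L β :=
  ⟨r.head.subst σ, r.pos.map (fun a => a.subst σ), r.neg.map (fun a => a.subst σ)⟩

/-- The variables occurring in an atom. -/
def Atom.vars (a : Atom L ℕ) : Set ℕ := {x | ∃ i, x ∈ (a.args i).varFinset}

/-- In every rule, each variable occurring in the body also occurs in the head. -/
def InternalVariableFree (P : Set (Rule L ℕ)) : Prop :=
  ∀ r ∈ P, ∀ a ∈ r.pos ++ r.neg, a.vars ⊆ r.head.vars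

/-- The function symbol `f` occurs in a term. -/
def FunOccurs {n : ℕ} (f : L.Functions n) : L.Term ℕ → Prop
  | .var _ => False
  | @FirstOrder.Language.Term.func _ _ m g ts => (⟨n, f⟩ : Σ k, L.Functions k) = ⟨m, g⟩ ∨
      ∃ i, FunOccurs f (ts i)

/-- Every function symbol (constants included) and every predicate symbol of the language occurs in
the program, so that the Herbrand base consists of all ground atoms. -/
def UsesAllSymbols (P : Set (Rule L ℕ)) : Prop :=
  (∀ (n : ℕ) (f : L.Functions n), ∃ r ∈ P, ∃ a ∈ r.head :: (r.pos ++ r.neg), ∃ i,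
    FunOccurs f (a.args i)) ∧
  (∀ (n : ℕ) (R : L.Relations n), ∃ r ∈ P, ∃ a ∈ r.head :: (r.pos ++ r.neg),
    (⟨n, R⟩ : Σ k, L.Relations k) = ⟨a.arity, a.pred⟩)

/-- The ground instances of the rules of `P`. -/
def gr (P : Set (Rule L ℕ)) : Set (Rule L Empty) :=
  {r | ∃ r' ∈ P, ∃ σ : ℕ → L.Term Empty, r = r'.subst σ}

/-- Three-valued interpretations; the truth values `0 < u < 1` are the elements `0 < 1 < 2` of
`Fin 3`. -/
abbrev Interp (L : FirstOrder.Language.{0, 0}) : Type := Atom L Empty → Fin 3

/-- The value of the body of a rule of the reduct with respect to `I` at `J`: the minimum of the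
values `J a` of the positive body atoms `a` and of the negations of the values `I a` of the negated
body atoms `a` (`Fin.rev` is the negation of truth values). -/
def Rule.body (r : Rule L Empty) (I J : Interp L) : Fin 3 :=
  ((r.pos.map J) ++ (r.neg.map fun a => Fin.rev (I a))).foldr min 2

/-- `J` is a three-valued model of the reduct `P ^ I`. -/
def IsReductModel (P : Set (Rule L ℕ)) (I J : Interp L) : Prop :=
  ∀ r ∈ gr P, r.body I J ≤ J r.head

/-- `I` is a stable partial model of `P`: it is the least three-valued model of `P ^ I`. -/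
def IsStablePartial (P : Set (Rule L ℕ)) (I : Interp L) : Prop :=
  IsLeast {J | IsReductModel P I J} I

/-- The set of undefined atoms. -/
def undef (I : Interp L) : Set (Atom L Empty) := {a | I a = 1}

/-- `I` is an L-stable model of `P`: a stable partial model with minimal set of undefined atoms. -/
def IsLStable (P : Set (Rule L ℕ)) (I : Interp L) : Prop :=
  IsStablePartial P I ∧ ¬ ∃ J, IsStablePartial P J ∧ undef J ⊂ undef I

end general

/-! ### The program -/

/-- The function symbols `0` and `s`. -/
inductive Fn : ℕ → Type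
  | zero : Fn 0
  | succ : Fn 1

/-- The predicate symbols. -/
inductive Pr : ℕ → Type
  | r : Pr 1
  | q : Pr 1
  | p : Pr 1
  | t : Pr 1
  | g : Pr 1

/-- The language. -/
@[reducible] def Lang : FirstOrder.Language.{0, 0} := ⟨Fn, Pr⟩

/-- The term `0`. -/
def tz {α : Type} : Lang.Term α := @FirstOrder.Language.Term.func Lang α 0 Fn.zero Fin.elim0

/-- The term `s(x)`. -/
def ts {α : Type} (x : Lang.Term α) : Lang.Term α :=
  @FirstOrder.Language.Term.func Lang α 1 Fn.succ fun _ => x

/-- The atom `R(x)`. -/
def mk {α : Type} (R : Pr 1) (x : Lang.Term α) : Atom Lang α := ⟨1, R, fun _ => x⟩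

/-- The variable `X`. -/
def X : Lang.Term ℕ := FirstOrder.Language.Term.var 0

/-- The program. -/
def prog : Set (Rule Lang ℕ) :=
  {⟨mk .r X, [], [mk .q X]⟩, ⟨mk .q X, [], [mk .r X]⟩,
   ⟨mk .p X, [mk .r X], []⟩, ⟨mk .p X, [mk .p (ts X)], []⟩,
   ⟨mk .t X, [mk .r X], []⟩, ⟨mk .t (ts X), [mk .t X], []⟩,
   ⟨mk .g X, [mk .t X], [mk .g X]⟩, ⟨mk .g X, [], [mk .g X, mk .p tz]⟩}

theorem subst_mk {α β : Type} (R : Pr 1) (x : Lang.Term α) (σ : α → Lang.Term β) :
    (mk R x).subst σ = mk R (x.subst σ) := rfl

theorem subst_X (σ : ℕ → Lang.Term Empty) : X.subst σ = σ 0 := rfl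

theorem subst_ts {α β : Type} (x : Lang.Term α) (σ : α → Lang.Term β) :
    (ts x).subst σ = ts (x.subst σ) := rfl

theorem subst_tz {α β : Type} (σ : α → Lang.Term β) :
    (tz : Lang.Term α).subst σ = tz := by
  unfold tz
  rw [FirstOrder.Language.Term.subst]
  congr 1
  exact funext fun i => i.elim0

theorem not_two_le : ¬ ((2 : Fin 3) ≤ 1) := by decide

theorem min_two (x : Fin 3) : min x 2 = x := by
  revert x; decide

/-- Being a model of the reduct, spelled out. -/
theorem isReductModel_iff (I J : Interp Lang) :
    IsReductModel prog I J ↔ ∀ x : Lang.Term Empty,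
      (Fin.rev (I (mk .q x)) ≤ J (mk .r x)) ∧
      (Fin.rev (I (mk .r x)) ≤ J (mk .q x)) ∧
      (J (mk .r x) ≤ J (mk .p x)) ∧
      (J (mk .p (ts x)) ≤ J (mk .p x)) ∧
      (J (mk .r x) ≤ J (mk .t x)) ∧
      (J (mk .t x) ≤ J (mk .t (ts x))) ∧
      (min (J (mk .t x)) (Fin.rev (I (mk .g x))) ≤ J (mk .g x)) ∧
      (min (Fin.rev (I (mk .g x))) (Fin.rev (I (mk .p tz))) ≤ J (mk .g x)) := by
  constructor
  · intro h x
    have key : ∀ r ∈ prog, (r.subst fun _ => x).body I J ≤ J (r.subst fun _ => x).head :=
      fun r hr => h _ ⟨r, hr, _, rfl⟩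
    simp only [prog, Set.mem_insert_iff, Set.mem_singleton_iff, forall_eq_or_imp, forall_eq,
      Rule.subst, Rule.body, List.map_cons, List.map_nil, List.nil_append, List.cons_append,
      List.foldr_cons, List.foldr_nil, min_two, subst_mk, subst_X, subst_ts, subst_tz] at key
    exact key
  · rintro h _ ⟨r, hr, σ, rfl⟩
    have h0 := h (σ 0)
    revert r
    simp only [prog, Set.mem_insert_iff, Set.mem_singleton_iff, forall_eq_or_imp, forall_eq,
      Rule.subst, Rule.body, List.map_cons, List.map_nil, List.nil_append, List.cons_append,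
      List.foldr_cons, List.foldr_nil, min_two, subst_mk, subst_X, subst_ts, subst_tz]
    exact h0

/-- The numerals. -/
def num : ℕ → Lang.Term Empty
  | 0 => tz
  | n + 1 => ts (num n)

theorem exists_num (x : Lang.Term Empty) : ∃ n, x = num n := by
  induction x with
  | var v => exact v.elim
  | func f xs ih =>
    cases f with
    | zero =>
      refine ⟨0, ?_⟩
      unfold num tz
      congr 1
      exact funext fun i => i.elim0
    | succ =>
      obtain ⟨n, hn⟩ := ih 0
      refine ⟨n + 1, ?_⟩
      rw [num, ts, ← hn]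
      congr 1
      funext i
      rw [Subsingleton.elim i 0]

/-- The value of a ground term. -/
def val : Lang.Term Empty → ℕ
  | .var x => x.elim
  | @FirstOrder.Language.Term.func _ _ 0 _ _ => 0
  | @FirstOrder.Language.Term.func _ _ (_ + 1) _ xs => val (xs 0) + 1

theorem val_ts (x : Lang.Term Empty) : val (ts x) = val x + 1 := by
  simp [ts, val]

theorem val_tz : val tz = 0 := by
  simp [tz, val]

theorem val_num (n : ℕ) : val (num n) = n := by
  induction n with
  | zero => exact val_tz
  | succ n ih => rw [num, val_ts, ih]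

/-- The stable partial model in which `r` holds exactly at `m + 1`. -/
def M (m : ℕ) : Interp Lang
  | ⟨1, Pr.r, xs⟩ => if val (xs 0) = m + 1 then 2 else 0
  | ⟨1, Pr.q, xs⟩ => if val (xs 0) = m + 1 then 0 else 2
  | ⟨1, Pr.p, xs⟩ => if val (xs 0) ≤ m + 1 then 2 else 0
  | ⟨1, Pr.t, xs⟩ => if m + 1 ≤ val (xs 0) then 2 else 0
  | ⟨1, Pr.g, xs⟩ => if m + 1 ≤ val (xs 0) then 1 else 0

theorem M_r (m : ℕ) (x : Lang.Term Empty) :
    M m (mk .r x) = if val x = m + 1 then 2 else 0 := rfl

theorem M_q (m : ℕ) (x : Lang.Term Empty) :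
    M m (mk .q x) = if val x = m + 1 then 0 else 2 := rfl

theorem M_p (m : ℕ) (x : Lang.Term Empty) :
    M m (mk .p x) = if val x ≤ m + 1 then 2 else 0 := rfl

theorem M_t (m : ℕ) (x : Lang.Term Empty) :
    M m (mk .t x) = if m + 1 ≤ val x then 2 else 0 := rfl

theorem M_g (m : ℕ) (x : Lang.Term Empty) :
    M m (mk .g x) = if m + 1 ≤ val x then 1 else 0 := rfl

/-- Every ground atom is of the form `R(x)`. -/
theorem atom_cases (a : Atom Lang Empty) : ∃ (R : Pr 1) (x : Lang.Term Empty), a = mk R x := by
  obtain ⟨k, R, xs⟩ := a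
  have : k = 1 := by cases R <;> rfl
  subst this
  refine ⟨R, xs 0, ?_⟩
  unfold mk
  congr 1
  funext i
  rw [Subsingleton.elim i 0]

theorem M_stable (m : ℕ) : IsStablePartial prog (M m) := by
  constructor
  · show IsReductModel prog (M m) (M m)
    rw [isReductModel_iff]
    intro x
    simp only [M_r, M_q, M_p, M_t, M_g, val_ts, val_tz]
    refine ⟨?_, ?_, ?_, ?_, ?_, ?_, ?_, ?_⟩ <;> split_ifs <;>
      first | decide | (exfalso; omega)
  · intro K hK
    replace hK := (isReductModel_iff _ _).1 hK
    have two_le : ∀ y : Fin 3, 2 ≤ y → y = 2 := by decide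
    have hr : ∀ x, val x = m + 1 → K (mk .r x) = 2 := by
      intro x hx
      have := (hK x).1
      rw [M_q, if_pos hx] at this
      exact two_le _ this
    have hq : ∀ x, val x ≠ m + 1 → K (mk .q x) = 2 := by
      intro x hx
      have := (hK x).2.1
      rw [M_r, if_neg hx] at this
      exact two_le _ this
    have hp : ∀ d n : ℕ, n + d = m + 1 → K (mk .p (num n)) = 2 := by
      intro d
      induction d with
      | zero =>
        intro n hn
        have := (hK (num n)).2.2.1
        rw [hr (num n) (by rw [val_num]; omega)] at this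
        exact two_le _ this
      | succ d ih =>
        intro n hn
        have := (hK (num n)).2.2.2.1
        rw [show ts (num n) = num (n + 1) from rfl, ih (n + 1) (by omega)] at this
        exact two_le _ this
    have ht : ∀ d : ℕ, K (mk .t (num (m + 1 + d))) = 2 := by
      intro d
      induction d with
      | zero =>
        have := (hK (num (m + 1))).2.2.2.2.1
        rw [hr (num (m + 1)) (by rw [val_num])] at this
        exact two_le _ this
      | succ d ih =>
        have := (hK (num (m + 1 + d))).2.2.2.2.2.1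
        rw [show ts (num (m + 1 + d)) = num (m + 1 + (d + 1)) from rfl, ih] at this
        exact two_le _ this
    intro a
    obtain ⟨R, x, rfl⟩ := atom_cases a
    obtain ⟨n, rfl⟩ := exists_num x
    cases R with
    | r =>
      rw [M_r]
      split_ifs with h
      · rw [hr _ h]
      · exact Fin.zero_le _
    | q =>
      rw [M_q]
      split_ifs with h
      · exact Fin.zero_le _
      · rw [hq _ h]
    | p =>
      rw [M_p]
      split_ifs with h
      · rw [val_num] at h
        rw [hp (m + 1 - n) n (by omega)]
      · exact Fin.zero_le _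
    | t =>
      rw [M_t]
      split_ifs with h
      · rw [val_num] at h
        obtain ⟨d, rfl⟩ := Nat.exists_eq_add_of_le h
        rw [ht d]
      · exact Fin.zero_le _
    | g =>
      rw [M_g]
      split_ifs with h
      · have h1 := (hK (num n)).2.2.2.2.2.2.1
        rw [M_g, if_pos h] at h1
        rw [val_num] at h
        obtain ⟨d, rfl⟩ := Nat.exists_eq_add_of_le h
        rw [ht d] at h1
        exact h1
      · exact Fin.zero_le _

/-- The undefined atoms of `M m` are the atoms `g(y)` with `y ≥ m + 1`. -/
theorem undef_M (m : ℕ) (a : Atom Lang Empty) (h : a ∈ undef (M m)) :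
    ∃ n, m + 1 ≤ n ∧ a = mk .g (num n) := by
  obtain ⟨R, x, rfl⟩ := atom_cases a
  obtain ⟨n, rfl⟩ := exists_num x
  unfold undef at h
  rw [Set.mem_setOf_eq] at h
  cases R with
  | r => rw [M_r] at h; split_ifs at h <;> exact absurd h (by decide)
  | q => rw [M_q] at h; split_ifs at h <;> exact absurd h (by decide)
  | p => rw [M_p] at h; split_ifs at h <;> exact absurd h (by decide)
  | t => rw [M_t] at h; split_ifs at h <;> exact absurd h (by decide)
  | g =>
    rw [M_g] at h
    split_ifs at h with h1
    · rw [val_num] at h1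
      exact ⟨n, h1, rfl⟩
    · exact absurd h (by decide)

/-- In a stable partial model, `g(x)` is not true. -/
theorem g_ne_two {I : Interp Lang} (hI : IsStablePartial prog I) (x : Lang.Term Empty) :
    I (mk .g x) ≠ 2 := by
  intro hx
  classical
  have hm : IsReductModel prog I (fun a => if a = mk .g x then 1 else I a) := by
    have h0 := (isReductModel_iff _ _).1 hI.1
    have hne : ∀ (R : Pr 1) (y : Lang.Term Empty), R ≠ .g → mk R y ≠ mk .g x := by
      intro R y hR h
      unfold mk at h
      rw [Atom.mk.injEq] at h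
      exact hR (eq_of_heq h.2.1)
    rw [isReductModel_iff]
    intro y
    rw [if_neg (hne .r y (by rintro ⟨⟩)), if_neg (hne .q y (by rintro ⟨⟩)),
      if_neg (hne .p y (by rintro ⟨⟩)), if_neg (hne .t y (by rintro ⟨⟩)),
      if_neg (hne .p (ts y) (by rintro ⟨⟩)), if_neg (hne .t (ts y) (by rintro ⟨⟩))]
    obtain ⟨h1, h2, h3, h4, h5, h6, h7, h8⟩ := h0 y
    refine ⟨h1, h2, h3, h4, h5, h6, ?_, ?_⟩
    · split_ifs with h
      · rw [h, hx]
        clear h7
        generalize I (mk .t y) = z
        revert z
        decide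
      · exact h7
    · split_ifs with h
      · rw [h, hx]
        generalize I (mk .p tz) = z
        revert z
        decide
      · exact h8
  have := hI.2 hm (mk .g x)
  dsimp only at this
  rw [if_pos rfl, hx] at this
  exact not_two_le this

/-- In a stable partial model, `p(0)` is true only if some `r(x)` is true. -/
theorem p_zero_ne_two {I : Interp Lang} (hI : IsStablePartial prog I)
    (h : ∀ x, I (mk .r x) ≠ 2) : I (mk .p tz) ≠ 2 := by
  intro hx
  classical
  have hm : IsReductModel prog I (fun a => if a.pred ≍ Pr.p then min (I a) 1 else I a) := by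
    have h0 := (isReductModel_iff _ _).1 hI.1
    have hne : ∀ (R : Pr 1) (y : Lang.Term Empty), R ≠ .p → ¬ ((mk R y).pred ≍ Pr.p) := by
      intro R y hR h
      exact hR (eq_of_heq h)
    have hp : ∀ (y : Lang.Term Empty), (mk .p y).pred ≍ Pr.p := fun y => HEq.rfl
    rw [isReductModel_iff]
    intro y
    dsimp only
    rw [if_neg (hne .r y (by rintro ⟨⟩)), if_neg (hne .q y (by rintro ⟨⟩)),
      if_neg (hne .g y (by rintro ⟨⟩)), if_neg (hne .t y (by rintro ⟨⟩)),
      if_neg (hne .t (ts y) (by rintro ⟨⟩)), if_pos (hp y), if_pos (hp (ts y))]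
    obtain ⟨h1, h2, h3, h4, h5, h6, h7, h8⟩ := h0 y
    refine ⟨h1, h2, ?_, ?_, h5, h6, h7, h8⟩
    · refine le_min h3 ?_
      have key : ∀ z : Fin 3, z ≠ 2 → z ≤ 1 := by decide
      exact key _ (h y)
    · exact min_le_min h4 le_rfl
  have := hI.2 hm (mk .p tz)
  dsimp only at this
  rw [if_pos (show (mk .p tz : Atom Lang Empty).pred ≍ Pr.p from HEq.rfl), hx] at this
  exact absurd this (by decide)

/-- In every stable partial model, `g(y)` is undefined for all large `y`. -/
theorem exists_m {I : Interp Lang} (hI : IsStablePartial prog I) :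
    ∃ m, ∀ n, m ≤ n → mk .g (num n) ∈ undef I := by
  have h0 := (isReductModel_iff _ _).1 hI.1
  by_cases h : ∃ x, I (mk .r x) = 2
  · obtain ⟨x, hx⟩ := h
    obtain ⟨m, rfl⟩ := exists_num x
    refine ⟨m, fun n hn => ?_⟩
    obtain ⟨d, rfl⟩ := Nat.exists_eq_add_of_le hn
    have two_le : ∀ y : Fin 3, 2 ≤ y → y = 2 := by decide
    have ht : I (mk .t (num (m + d))) = 2 := by
      clear hn
      induction d with
      | zero =>
        have := (h0 (num m)).2.2.2.2.1
        rw [hx] at this
        exact two_le _ this
      | succ d ih =>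
        have := (h0 (num (m + d))).2.2.2.2.2.1
        rw [show ts (num (m + d)) = num (m + (d + 1)) from rfl, ih] at this
        exact two_le _ this
    have h1 := (h0 (num (m + d))).2.2.2.2.2.2.1
    have h2 := g_ne_two hI (num (m + d))
    rw [ht] at h1
    show I (mk .g (num (m + d))) = 1
    revert h1 h2
    generalize I (mk .g (num (m + d))) = z
    revert z
    decide
  · push Not at h
    refine ⟨0, fun n _ => ?_⟩
    have h1 := (h0 (num n)).2.2.2.2.2.2.2
    have h2 := g_ne_two hI (num n)
    have h3 := p_zero_ne_two hI h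
    show I (mk .g (num n)) = 1
    revert h1 h2 h3
    generalize I (mk .g (num n)) = z
    generalize I (mk .p tz) = w
    revert z w
    decide

theorem no_lStable : ¬ ∃ I, IsLStable prog I := by
  rintro ⟨I, hI, hmin⟩
  obtain ⟨m, hm⟩ := exists_m hI
  refine hmin ⟨M m, M_stable m, ?_, ?_⟩
  · intro a ha
    obtain ⟨n, hn, rfl⟩ := undef_M m a ha
    exact hm n (by omega)
  · intro hsub
    have := hsub (hm m le_rfl)
    unfold undef at this
    rw [Set.mem_setOf_eq, M_g, val_num, if_neg (by omega)] at this
    exact absurd this (by decide)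

theorem prog_finite : prog.Finite := by
  unfold prog
  simp only [Set.finite_insert, Set.finite_singleton]

theorem vars_mk (R : Pr 1) (x : Lang.Term ℕ) : (mk R x).vars = {v | v ∈ x.varFinset} := by
  ext v
  simp [mk, Atom.vars]

theorem vars_ts (x : Lang.Term ℕ) : (ts x).varFinset = x.varFinset := by
  ext v
  simp [ts, FirstOrder.Language.Term.varFinset]

theorem vars_tz : (tz : Lang.Term ℕ).varFinset = ∅ := by
  ext v
  simp [tz, FirstOrder.Language.Term.varFinset]

theorem prog_ivf : InternalVariableFree prog := by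
  intro r hr
  revert r
  simp only [prog, Set.mem_insert_iff, Set.mem_singleton_iff, forall_eq_or_imp, forall_eq,
    List.nil_append, List.cons_append, List.mem_cons, List.not_mem_nil,
    or_false, vars_mk, vars_ts, vars_tz, subset_refl, true_and]
  simp

theorem prog_uses : UsesAllSymbols prog := by
  constructor
  · intro n f
    cases f with
    | zero =>
      refine ⟨⟨mk .g X, [], [mk .g X, mk .p tz]⟩, by simp [prog], mk .p tz, by simp, (0 : Fin 1), ?_⟩
      exact Or.inl rfl
    | succ =>
      refine ⟨⟨mk .p X, [mk .p (ts X)], []⟩, by simp [prog], mk .p (ts X), by simp, (0 : Fin 1), ?_⟩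
      exact Or.inl rfl
  · intro n R
    cases R with
    | r => exact ⟨⟨mk .r X, [], [mk .q X]⟩, by simp [prog], mk .r X, by simp, rfl⟩
    | q => exact ⟨⟨mk .r X, [], [mk .q X]⟩, by simp [prog], mk .q X, by simp, rfl⟩
    | p => exact ⟨⟨mk .p X, [mk .r X], []⟩, by simp [prog], mk .p X, by simp, rfl⟩
    | t => exact ⟨⟨mk .t X, [mk .r X], []⟩, by simp [prog], mk .t X, by simp, rfl⟩
    | g => exact ⟨⟨mk .g X, [mk .t X], [mk .g X]⟩, by simp [prog], mk .g X, by simp, rfl⟩

theorem finite_fn : Finite (Σ n, Lang.Functions n) := by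
  refine Finite.of_surjective (fun b : Bool => if b then (⟨0, Fn.zero⟩ : Σ n, Lang.Functions n)
    else ⟨1, Fn.succ⟩) ?_
  rintro ⟨n, f⟩
  cases f with
  | zero => exact ⟨true, rfl⟩
  | succ => exact ⟨false, rfl⟩

theorem finite_pr : Finite (Σ n, Lang.Relations n) := by
  refine Finite.of_surjective (fun b : Fin 5 => (⟨1, ![Pr.r, Pr.q, Pr.p, Pr.t, Pr.g] b⟩ :
    Σ n, Lang.Relations n)) ?_
  rintro ⟨n, f⟩
  cases f with
  | r => exact ⟨0, rfl⟩
  | q => exact ⟨1, rfl⟩
  | p => exact ⟨2, rfl⟩
  | t => exact ⟨3, rfl⟩
  | g => exact ⟨4, rfl⟩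

/-- There is a finite, internal-variable-free normal logic program `P` over a language with finitely
many symbols, all of which occur in `P`, without L-stable models: every stable partial model `I`
admits a stable partial model `J` with strictly fewer undefined atoms. -/
theorem result : ∃ (L : FirstOrder.Language.{0, 0}), Finite (Σ n, L.Functions n) ∧
    Finite (Σ n, L.Relations n) ∧ ∃ P : Set (Rule L ℕ), P.Finite ∧ InternalVariableFree P ∧
      UsesAllSymbols P ∧ ¬ ∃ I : Interp L, IsLStable P I :=
  ⟨Lang, finite_fn, finite_pr, prog, prog_finite, prog_ivf, prog_uses, no_lStable⟩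

end Pool.Agent.Results.MP_718be6_lc.NoLStableModel
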